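import Mathlib
import Pool.Agent.N388.EFC.Eleven
import Pool.Agent.TH885.NW.Prop

set_option autoImplicit false

/-!
# Collisions of eleven fat points: the critical degrees divisible by three, characteristic zero

For every field `k` of characteristic zero, every `m` and all `(c, a)` outside a hypersurface, the forms
of degree `d` through the subscheme of the plane with ideal
`(y - (a₀ + a₁ x + ... + a₁₀ x ^ 10), (x - c) ^ 11) ^ m` have the expected dimension in every degree `d`,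
except possibly the degrees divisible by three with
`3 (√11 - 3) / (√11 + 3) ≤ d - √11 m < (√11 - 3) / 2`, an interval of length
`(√11 - 3) ^ 2 / (2 (√11 + 3)) = 0.0079...`. Hence for all multiplicities `m` but a proportion of at most
`(√11 - 3) ^ 2 / (6 (√11 + 3)) = 0.0026...` they have the expected dimension in all degrees.
-/

namespace Pool.Agent.Results.MP_e6aa12_ag.ElevenCriticalDegrees

open Polynomial

universe u

/-- The forms of degree `d` in three variables whose dehomogenisation lies in the ideal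
`(y - ∑ a_j x ^ j, (x - c) ^ r) ^ m` of `k[x][y]`. -/
noncomputable def forms {k : Type u} [Field k] {r : ℕ} (m : ℕ) (c : k) (a : Fin r → k) (d : ℕ) :
    Submodule k (MvPolynomial (Fin 3) k) :=
  MvPolynomial.homogeneousSubmodule (Fin 3) k d ⊓
    (Submodule.restrictScalars k
      ((Ideal.span {X - C (∑ j : Fin r, C (a j) * X ^ (j : ℕ)), C ((X - C c) ^ r)} :
        Ideal k[X][X]) ^ m)).comap
      (MvPolynomial.aeval ![C X, X, 1] :
        MvPolynomial (Fin 3) k →ₐ[k] k[X][X]).toLinearMap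

/-- Over every field of characteristic zero, for all `(c, a)` outside a hypersurface, the space of forms
has the expected dimension in all degrees `d` in the set `S`. -/
def Expected (r m : ℕ) (S : Set ℕ) : Prop :=
  ∀ (k : Type u) [Field k] [CharZero k],
    ∃ F : MvPolynomial (Fin (r + 1)) k, F ≠ 0 ∧
      ∀ (c : k) (a : Fin r → k), MvPolynomial.eval (Fin.cons c a : Fin (r + 1) → k) F ≠ 0 →
        ∀ d ∈ S, Module.finrank k (forms m c a d) = Nat.choose (d + 2) 2 - r * Nat.choose (m + 1) 2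

theorem irr11 : Irrational (√(11 : ℝ)) := by
  have h : ¬ IsSquare (11 : ℕ) := by
    rintro ⟨k, hk⟩
    have : k < 4 := by nlinarith
    interval_cases k <;> omega
  exact_mod_cast irrational_sqrt_natCast_iff.2 h

theorem result :
    (∀ m : ℕ, Expected.{u} 11 m
      {d | ¬ (3 ∣ d ∧ 3 * (√11 - 3) / (√11 + 3) ≤ (d : ℝ) - √11 * m ∧
        (d : ℝ) - √11 * m < (√11 - 3) / 2)}) ∧
    ∀ ε : ℝ, 0 < ε → ∃ M₀ : ℕ, ∀ M : ℕ, M₀ ≤ M →
      (Set.ncard {m : ℕ | m < M ∧ ¬ Expected.{u} 11 m Set.univ} : ℝ) ≤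
        ((√11 - 3) ^ 2 / (6 * (√11 + 3)) + ε) * M := by
  classical
  have h1 : ∀ m : ℕ, Expected.{u} 11 m
      {d | ¬ (3 ∣ d ∧ 3 * (√11 - 3) / (√11 + 3) ≤ (d : ℝ) - √11 * m ∧
        (d : ℝ) - √11 * m < (√11 - 3) / 2)} := by
    intro m k _ _
    obtain ⟨F, hF, hF'⟩ := N388.EFC.eleven_coll0 (m := m) k
    exact ⟨F, hF, fun c a hc d hd => hF' c a hc d hd⟩
  have h2 : ∀ m : ℕ, ¬ Expected.{u} 11 m Set.univ → ∃ D : ℤ,
      3 * (√11 - 3) / (√11 + 3) ≤ 3 * (D : ℝ) - √11 * m ∧
        3 * (D : ℝ) - √11 * m < (√11 - 3) / 2 := by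
    intro m hbad
    by_contra hcon
    push Not at hcon
    refine hbad fun k _ _ => ?_
    obtain ⟨F, hF, hF'⟩ := h1 m k
    refine ⟨F, hF, fun c a hc d _ => hF' c a hc d ?_⟩
    rintro ⟨⟨x, rfl⟩, h3, h4⟩
    have h5 := hcon x (by push_cast at h3 ⊢; exact h3)
    push_cast at h4 h5
    exact absurd h4 (not_lt.2 h5)
  refine ⟨h1, fun ε hε => ?_⟩
  have hs3 : 3 < √(11 : ℝ) := by
    rw [Real.lt_sqrt (by norm_num)]; norm_num
  have hirr3 : Irrational (√(11 : ℝ) / 3) := by
    have := irr11.div_natCast (m := 3) (by norm_num)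
    push_cast at this
    exact this
  obtain ⟨b, hb⟩ : ∃ b : ℝ, b = (√11 - 3) ^ 2 / (6 * (√11 + 3)) := ⟨_, rfl⟩
  have hb0 : 0 ≤ b := by rw [hb]; positivity
  have hb1 : (√11 - 3) / 2 = 3 * (√11 - 3) / (√11 + 3) + 3 * b := by
    rw [hb]
    have : √(11 : ℝ) + 3 ≠ 0 := by positivity
    field_simp
    ring
  obtain ⟨M0, hM0⟩ := Pool.Agent.TH885.NW.count_sharp hirr3 ((√11 - 3) / (√11 + 3)) 0 b
    (by linarith) hε
  refine ⟨⌈M0⌉₊, fun M hM => ?_⟩
  have hfin : {m : ℕ | m < M ∧ ¬ Expected.{u} 11 m Set.univ}.Finite :=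
    (Set.finite_lt_nat M).subset fun m hm => hm.1
  have h3 := hM0 M ((Nat.le_ceil M0).trans (by exact_mod_cast hM)) hfin.toFinset
    (fun m hm => ((Set.Finite.mem_toFinset hfin).1 hm).1) (fun m hm => by
      obtain ⟨D, hD1, hD2⟩ := h2 m ((Set.Finite.mem_toFinset hfin).1 hm).2
      have e1 : 3 * (√11 - 3) / (√11 + 3) = 3 * ((√(11 : ℝ) - 3) / (√11 + 3)) := by ring
      rw [hb1, e1] at hD2
      rw [e1] at hD1
      exact ⟨D, by linarith, by linarith⟩)
  rw [Set.ncard_eq_toFinset_card _ hfin]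
  rw [zero_add] at h3
  rw [← hb]
  exact h3

end Pool.Agent.Results.MP_e6aa12_ag.ElevenCriticalDegrees
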