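import Pool.Agent.TH183.QS.Fin
import Pool.Agent.TH518.CW.TwoC
import Pool.Agent.N54.MS.One

set_option autoImplicit false

/-!
# General collisions of `r ≥ 10` fat points: all degrees, along almost all sequences of multiplicities with a real parameter

Let `D` be any set of natural numbers with at least `N ^ (1 - ε)` members in `(N, 2 N]` for every `ε > 0` and all large `N`
(`Many`), for instance all integers or all primes. Let `g` be any real sequence with `g(t + 1) - g(t) ≥ t ^ (ρ - 1)` for large `t`, where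
`0 < ρ ≤ 1` (for instance `t`, `t ²`, `√t`, `t log t`, the `t`-th prime, `2 ^ t`, `t !`), and `c` any real sequence. Then for almost all
real `ξ` with `ξ g(t) + c(t) ≥ 1` for large `t` the following holds for the multiplicities `m = ⌊ξ g(t) + c(t)⌋`, `t ∈ D`. The same is true
for almost all `ξ > 1` and `m = ⌊ξ ^ g(t) + c(t)⌋`, `g(t)` increasing integers, and for almost all members of all families of twice
continuously differentiable functions whose derivatives are separated (`Spread`). The sequences can grow arbitrarily fast.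

(1) For every `r ≥ 10` and for all `t ∈ D` in `(N, 2 N]` outside of a proportion of at most `bad r + δ`, `bad r < 1`, the space of the
forms of degree `d` on the scheme with ideal `(y - (a₀ + a₁ x + ... + a_(r-1) x ^ (r-1)), (x - c) ^ r) ^ m` has the expected dimension
in EVERY degree `d`, over every field of characteristic zero and for all `(c, a)` outside a hypersurface; `bad r = 0` if `r` is a
square.

(2) For `r = 10, …, 15` the same holds over EVERY field, of any characteristic, outside of a proportion of at most `badAll r + δ`,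
`badAll r < 1`.

Proof. The open degrees form a short window (TH183, TH518 of the starting library), so that a bad multiplicity `m` puts `m √r` in an
arc modulo one (helper141, `Pool.Agent.N141.SG`). A second moment argument over the parameter (after helper668's one-dimensional metric
theorem) shows that for almost all `ξ` the exponential sums of `γ x(t)`, `x(t) = ξ g(t) + c(t)`, over the members of `D` in `(N, 2 N]`
are at most `N ^ (1 - η)` for every algebraic number `γ ≠ 0` (`Pool.Agent.N54.MS`).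
-/

namespace Pool.Agent.Results.MP_e6aa12_ag.MetricMultiplicities

open Polynomial Filter MeasureTheory
open Pool.Agent.N141.SG (three_lt lo_le up_le win_nonneg)
open Pool.Agent.N54.MS (count_of count_none cnt_mono alg_sqrt alg_nat)

universe u

/-- The forms of degree `d` in three variables whose dehomogenisation lies in the ideal
`(y - ∑ a_j x ^ j, (x - c) ^ r) ^ m` of `k[x][y]`. -/
noncomputable def forms {k : Type u} [Field k] {r : ℕ} (m : ℕ) (c : k) (a : Fin r → k) (d : ℕ) :
    Submodule k (MvPolynomial (Fin 3) k) :=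
  MvPolynomial.homogeneousSubmodule (Fin 3) k d ⊓
    (Submodule.restrictScalars k
      ((Ideal.span {X - C (∑ j : Fin r, C (a j) * X ^ (j : ℕ)), C ((X - C c) ^ r)} :
        Ideal k[X][X]) ^ m)).comap
      (MvPolynomial.aeval ![C X, X, 1] :
        MvPolynomial (Fin 3) k →ₐ[k] k[X][X]).toLinearMap

/-- Over the field `k`, for all `(c, a)` outside a hypersurface, the space of forms has the expected
dimension in every degree. -/
def ExpectedOver (k : Type u) [Field k] (r m : ℕ) : Prop :=
  ∃ F : MvPolynomial (Fin (r + 1)) k, F ≠ 0 ∧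
    ∀ (c : k) (a : Fin r → k), MvPolynomial.eval (Fin.cons c a : Fin (r + 1) → k) F ≠ 0 →
      ∀ d : ℕ, Module.finrank k (forms m c a d) = Nat.choose (d + 2) 2 - r * Nat.choose (m + 1) 2

/-- every field of characteristic zero -/
def AllDegrees (r m : ℕ) : Prop :=
  ∀ (k : Type u) [Field k] [CharZero k], ExpectedOver k r m

/-- every field, of any characteristic -/
def AllDegreesAllFields (r m : ℕ) : Prop :=
  ∀ (k : Type u) [Field k], ExpectedOver k r m

open Classical in
/-- The bound for the proportion of the bad multiplicities in characteristic zero. -/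
noncomputable def bad (r : ℕ) : ℝ :=
  if IsSquare r then 0
  else if r = 11 ∨ r = 13 then (√(r : ℝ) - 3) / 6
  else (min (√(r : ℝ) - 3) (2 / 3 + 9 / (4 * √(r : ℝ))) +
    min (√(r : ℝ) - 3) (2 / 3 + 1 / (4 * √(r : ℝ)))) / 2

/-- The bound for the proportion of the bad multiplicities in all characteristics. -/
noncomputable def badAll (r : ℕ) : ℝ :=
  if r = 11 ∨ r = 13 then (√(r : ℝ) - 3) / 6 else √(r : ℝ) - 3

/-- The derivatives of the consecutive functions `F t` are separated on `[u, v]` and their second derivatives increase. -/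
def Spread (ρ u v : ℝ) (F : ℕ → ℝ → ℝ) : Prop :=
  (∀ t, ContDiff ℝ 2 (F t)) ∧ ∃ t₀ : ℕ, ∀ t, t₀ ≤ t → ∀ x ∈ Set.Icc u v,
    (t : ℝ) ^ (ρ - 1) ≤ deriv (F (t + 1)) x - deriv (F t) x ∧
      deriv (deriv (F t)) x ≤ deriv (deriv (F (t + 1))) x

/-- The number of the members `t` of `D` with `N < t ≤ 2 N` and `p t`. -/
noncomputable def count (D : Set ℕ) (p : ℕ → Prop) (N : ℕ) : ℝ :=
  ({t : ℕ | N < t ∧ t ≤ 2 * N ∧ t ∈ D ∧ p t}.ncard : ℝ)

/-- For every `ε > 0` and all large `N` the set `D` has at least `N ^ (1 - ε)` members `t` with `N < t ≤ 2 N`. -/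
def Many (D : Set ℕ) : Prop :=
  ∀ ε : ℝ, 0 < ε → ∀ᶠ N : ℕ in atTop, (N : ℝ) ^ (1 - ε) ≤ count D (fun _ => True) N

/-- If the numbers `x t` are at least `1` for all large `t`, then the multiplicity `⌊x t⌋` is good for `r ≥ 10` points, all degrees and all
fields of characteristic zero for all but at most the proportion `bad r + δ` of the members `t` of `D` in `(N, 2 N]`, and for
`r = 10, …, 15` points, all degrees and all fields for all but at most the proportion `badAll r + δ` of them. -/
def Along (D : Set ℕ) (x : ℕ → ℝ) : Prop :=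
  (∀ᶠ t : ℕ in atTop, 1 ≤ x t) →
    (∀ r : ℕ, 10 ≤ r → ∀ δ : ℝ, 0 < δ → ∀ᶠ N : ℕ in atTop,
      count D (fun t => ¬ AllDegrees.{u} r ⌊x t⌋₊) N ≤ (bad r + δ) * count D (fun _ => True) N) ∧
    (∀ r : ℕ, 10 ≤ r → r ≤ 15 → ∀ δ : ℝ, 0 < δ → ∀ᶠ N : ℕ in atTop,
      count D (fun t => ¬ AllDegreesAllFields.{u} r ⌊x t⌋₊) N ≤ (badAll r + δ) * count D (fun _ => True) N)

theorem not_square {r : ℕ} (h1 : 10 ≤ r) (h2 : r ≤ 15) : ¬ IsSquare r := by
  rintro ⟨k, hk⟩
  have : k ≤ 3 := by nlinarith
  interval_cases k <;> omega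

/-- eleven and thirteen points: a bad multiplicity gives a multiple of three in a short window -/
theorem window3 {r m : ℕ} (hr : r = 11 ∨ r = 13) (h : ¬ AllDegreesAllFields.{u} r m) :
    ∃ z : ℤ, -((√(r : ℝ) - 3) / 6) ≤ √(r : ℝ) / 3 * m + 0 - z ∧ √(r : ℝ) / 3 * m + 0 - z ≤ 0 := by
  by_contra hcon
  push Not at hcon
  apply h
  intro k _
  have key : ∃ F : MvPolynomial (Fin (r + 1)) k, F ≠ 0 ∧
      ∀ (c : k) (a : Fin r → k), MvPolynomial.eval (Fin.cons c a : Fin (r + 1) → k) F ≠ 0 →
        ∀ d : ℕ, (¬ 3 ∣ d ∨ (d : ℝ) ≤ √(r : ℝ) * m ∨ √(r : ℝ) * (2 * m + 1) ≤ 2 * d + 3) →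
          Module.finrank k (forms m c a d) = Nat.choose (d + 2) 2 - r * Nat.choose (m + 1) 2 := by
    rcases hr with rfl | rfl
    · obtain ⟨F, hF, hF'⟩ := Pool.Agent.TH518.CW.eleven_coll (m := m) k
      exact ⟨F, hF, fun c a hc d hd => hF' c a hc d hd⟩
    · obtain ⟨F, hF, hF'⟩ := Pool.Agent.TH518.CW.thirteen_coll (m := m) k
      exact ⟨F, hF, fun c a hc d hd => hF' c a hc d hd⟩
  obtain ⟨F, hF, hF'⟩ := key
  refine ⟨F, hF, fun c a hc d => hF' c a hc d ?_⟩
  by_cases h3 : 3 ∣ d
  · obtain ⟨e, rfl⟩ := h3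
    have h1 := hcon (e : ℤ)
    push_cast at h1 ⊢
    rcases le_or_gt (3 * (e : ℝ)) (√(r : ℝ) * m) with h2 | h2
    · exact Or.inr (Or.inl h2)
    · right; right
      by_contra h4
      rw [not_le] at h4
      have h5 := h1 (by linarith)
      linarith
  · exact Or.inl h3

/-- all characteristics -/
theorem window_all {r m : ℕ} (hr : 10 ≤ r) (h : ¬ AllDegreesAllFields.{u} r m) :
    ∃ z : ℤ, -(√(r : ℝ) - 3) ≤ √(r : ℝ) * m + 0 - z ∧ √(r : ℝ) * m + 0 - z ≤ 0 := by
  by_contra hcon
  push Not at hcon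
  apply h
  intro k _
  obtain ⟨F, hF, hF'⟩ := Pool.Agent.TH518.CW.coll_all (m := m) hr k
  refine ⟨F, hF, fun c a hc d => hF' c a hc d ?_⟩
  have h1 := hcon (d : ℤ)
  push_cast at h1
  rcases le_or_gt (d : ℝ) (√(r : ℝ) * m) with h2 | h2
  · exact Or.inl h2
  · right
    by_contra h4
    rw [not_le] at h4
    have h5 := h1 (by linarith)
    linarith

/-- characteristic zero -/
theorem window {r m : ℕ} (hr : 10 ≤ r) (h : ¬ AllDegrees.{u} r m) : ∃ z : ℤ,
    -(min (√(r : ℝ) - 3) (2 / 3 + 1 / (4 * √(r : ℝ))) / 2) ≤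
      √(r : ℝ) * m + (√(r : ℝ) - 3) / 2 - z ∧
    √(r : ℝ) * m + (√(r : ℝ) - 3) / 2 - z ≤
      min (√(r : ℝ) - 3) (2 / 3 + 9 / (4 * √(r : ℝ))) / 2 := by
  by_contra hcon
  push Not at hcon
  apply h
  intro k _ _
  obtain ⟨F, hF, hF'⟩ := Pool.Agent.TH183.QS.coll_every hr m k
  refine ⟨F, hF, fun c a hc d => hF' c a hc d ?_⟩
  by_contra hd
  push Not at hd
  obtain ⟨d1, d2, d3, d4⟩ := hd
  have h1 := hcon (d : ℤ)
  push_cast at h1
  have h2 : -(min (√(r : ℝ) - 3) (2 / 3 + 1 / (4 * √(r : ℝ))) / 2) ≤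
      √(r : ℝ) * m + (√(r : ℝ) - 3) / 2 - d := by
    rcases min_choice (√(r : ℝ) - 3) (2 / 3 + 1 / (4 * √(r : ℝ))) with h | h <;> rw [h] <;>
      linarith
  have h3 := h1 h2
  rcases min_choice (√(r : ℝ) - 3) (2 / 3 + 9 / (4 * √(r : ℝ))) with h | h <;> rw [h] at h3 <;>
    linarith

theorem squares {r m : ℕ} (hr : 10 ≤ r) (hsq : IsSquare r) : AllDegrees.{u} r m := by
  intro k _ _
  obtain ⟨F, hF, hF'⟩ := Pool.Agent.TH183.QS.coll_start (m := m) hr (Or.inr hsq) k
  exact ⟨F, hF, fun c a hc d => hF' c a hc d⟩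

theorem of_all {r m : ℕ} (h : AllDegreesAllFields.{u} r m) : AllDegrees.{u} r m :=
  fun k _ _ => h k

theorem bad_lt {r : ℕ} (hr : 10 ≤ r) : bad r < 1 := by
  have hs3 := three_lt hr
  unfold bad
  split_ifs with h1 h2
  · norm_num
  · have : √(r : ℝ) < 4 := by
      rw [Real.sqrt_lt' (by norm_num)]
      rcases h2 with rfl | rfl <;> norm_num
    linarith
  · have h3 := lo_le hs3.le
    have h4 := up_le hs3.le
    linarith

theorem badAll_lt {r : ℕ} (hr' : r ≤ 15) : badAll r < 1 := by
  have : √(r : ℝ) < 4 := by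
    rw [Real.sqrt_lt' (by norm_num)]
    have : (r : ℝ) ≤ 15 := by exact_mod_cast hr'
    linarith
  unfold badAll
  split_ifs <;> linarith

theorem along_of {D : Set ℕ} {x : ℕ → ℝ} (h : Pool.Agent.N54.MS.Gen D x) : Along.{u} D x := by
  classical
  intro hx
  have hall : ∀ r : ℕ, 10 ≤ r → r ≤ 15 → ∀ δ : ℝ, 0 < δ → ∀ᶠ N : ℕ in atTop,
      count D (fun t => ¬ AllDegreesAllFields.{u} r ⌊x t⌋₊) N ≤ (badAll r + δ) * count D (fun _ => True) N := by
    intro r hr hr' δ hδ
    have hs3 := three_lt hr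
    have hirr : Irrational √(r : ℝ) := irrational_sqrt_natCast_iff.2 (not_square hr hr')
    by_cases h11 : r = 11 ∨ r = 13
    · have e : badAll r = 0 - (-((√(r : ℝ) - 3) / 6)) := by
        unfold badAll
        rw [if_pos h11]
        ring
      rw [e]
      have hirr3 : Irrational (√(r : ℝ) / 3) := by
        have := hirr.div_natCast (m := 3) (by norm_num)
        simpa using this
      have halg3 : IsAlgebraic ℚ (√(r : ℝ) / 3) := by
        have h3 := (alg_nat 3).inv
        rw [div_eq_mul_inv]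
        have := (alg_sqrt r).mul h3
        simpa using this
      exact count_of h hx (by linarith) hirr3 halg3 0 (by linarith)
        (bad := fun m => ¬ AllDegreesAllFields.{u} r m) (fun m _ hbad => window3 h11 hbad) hδ
    · have e : badAll r = 0 - (-(√(r : ℝ) - 3)) := by
        unfold badAll
        rw [if_neg h11]
        ring
      rw [e]
      exact count_of h hx (by linarith) hirr (alg_sqrt r) 0 (by linarith)
        (bad := fun m => ¬ AllDegreesAllFields.{u} r m) (fun m _ hbad => window_all hr hbad) hδ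
  refine ⟨fun r hr δ hδ => ?_, hall⟩
  by_cases hsq : IsSquare r
  · have e : bad r = 0 := by
      unfold bad
      rw [if_pos hsq]
    rw [e, zero_add]
    exact count_none hx (bad := fun m => ¬ AllDegrees.{u} r m)
      (fun m _ hbad => hbad (squares hr hsq)) hδ.le
  · by_cases h11 : r = 11 ∨ r = 13
    · have e : bad r = badAll r := by
        unfold bad badAll
        rw [if_neg hsq, if_pos h11, if_pos h11]
      rw [e]
      filter_upwards [hall r hr (by omega) δ hδ] with N hN
      exact (cnt_mono D (fun t ht h2 => ht (of_all h2)) N).trans hN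
    · obtain ⟨g1, g2⟩ := win_nonneg hr
      have e : bad r = min (√(r : ℝ) - 3) (2 / 3 + 9 / (4 * √(r : ℝ))) / 2 -
          (-(min (√(r : ℝ) - 3) (2 / 3 + 1 / (4 * √(r : ℝ))) / 2)) := by
        unfold bad
        rw [if_neg hsq, if_neg h11]
        ring
      rw [e]
      have hs3 := three_lt hr
      have hirr : Irrational √(r : ℝ) := irrational_sqrt_natCast_iff.2 hsq
      exact count_of h hx (by linarith) hirr (alg_sqrt r) ((√(r : ℝ) - 3) / 2)
        (by linarith) (bad := fun m => ¬ AllDegrees.{u} r m) (fun m _ hbad => window hr hbad) hδ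

/-- **Main result.** For every set `D` with many members and almost all members `x` of the three kinds of families of sequences,
`Along D x` holds. The sets of all integers and of all primes have many members. -/
theorem result :
    (∀ D : Set ℕ, Many D → ∀ ρ : ℝ, 0 < ρ → ρ ≤ 1 →
      (∀ (u v : ℝ) (F : ℕ → ℝ → ℝ), Spread ρ u v F →
        ∀ᵐ ξ : ℝ, ξ ∈ Set.Ioc u v → Along.{u} D (fun t => F t ξ)) ∧
      (∀ g c : ℕ → ℝ, (∀ᶠ t : ℕ in atTop, (t : ℝ) ^ (ρ - 1) ≤ g (t + 1) - g t) →
        ∀ᵐ ξ : ℝ, Along.{u} D (fun t => ξ * g t + c t)) ∧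
      (∀ (g : ℕ → ℕ) (c : ℕ → ℝ), StrictMono g →
        ∀ᵐ ξ : ℝ, 1 < ξ → Along.{u} D (fun t => ξ ^ g t + c t))) ∧
    Many Set.univ ∧ Many {p : ℕ | p.Prime} ∧
    (∀ r : ℕ, 10 ≤ r → bad r < 1) ∧ (∀ r : ℕ, r ≤ 15 → badAll r < 1) := by
  refine ⟨fun D hD ρ hρ hρ1 => Pool.Agent.N54.MS.three1 hD hρ hρ1 (Along.{u} D) fun x hx => along_of hx,
    Pool.Agent.N54.MS.many_univ, Pool.Agent.N54.MS.many_primes, fun r hr => bad_lt hr,
    fun r hr' => badAll_lt hr'⟩

end Pool.Agent.Results.MP_e6aa12_ag.MetricMultiplicities
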