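import Pool.Agent.N794.DG.Near
import Pool.Agent.N794.DG.Cov
import Pool.Agent.TH183.QS.Fin
import Pool.Agent.TH518.CW.TwoC
import Pool.Agent.N141.SG.One

set_option autoImplicit false

/-!
# General collisions of `r ≥ 10` fat points: all degrees, for random multiplicities

A random multiplicity `m` has a finitely supported distribution `μ`. `Always Q` says that all random multiplicities for which
the exponential sums `E e(θ m)` at certain finitely many irrational `θ` and the probability of small values are small have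
the property `Q`.

**Theorem.** (1) For every `r ≥ 10` and every `δ > 0`, with a probability of at least `1 - bad r - δ` the space of the
forms of degree `d` on the scheme with ideal `(y - (a₀ + a₁ x + ... + a_(r-1) x ^ (r-1)), (x - c) ^ r) ^ m` has the expected
dimension in EVERY degree `d`, over every field of characteristic zero and for all `(c, a)` outside a hypersurface.

(2) For `r = 10, …, 15` the same holds over EVERY field, of any characteristic, with a probability of at least
`1 - badAll r - δ`.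

(3) `bad r < 1` and `badAll r < 1`.

(4) (`Covers`) These bounds hold in particular for all large terms of all sequences of random multiplicities whose
exponential sums at the irrational frequencies tend to zero; for the random multiplicities `c₀ + κ v` where `v` has `k ≥ k₀`
independent digits in a base `b` none of which is almost constant; and for the random members of families of residues with
small Fourier coefficients, among them very thin ones: subgroups of order `≥ 5 p ^ (3/8 + δ)` modulo a prime `p`, and the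
quotients `j / r` modulo `p` with `r`, `j` below powers of `log p`.
-/

namespace Pool.Agent.Results.MP_e6aa12_ag.RandomMultiplicities

open Polynomial Pool.Agent.N794.DG
open Pool.Agent.N141.SG (three_lt lo_le up_le win_nonneg)

universe u

/-- The forms of degree `d` in three variables whose dehomogenisation lies in the ideal
`(y - ∑ a_j x ^ j, (x - c) ^ r) ^ m` of `k[x][y]`. -/
noncomputable def forms {k : Type u} [Field k] {r : ℕ} (m : ℕ) (c : k) (a : Fin r → k) (d : ℕ) :
    Submodule k (MvPolynomial (Fin 3) k) :=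
  MvPolynomial.homogeneousSubmodule (Fin 3) k d ⊓
    (Submodule.restrictScalars k
      ((Ideal.span {X - C (∑ j : Fin r, C (a j) * X ^ (j : ℕ)), C ((X - C c) ^ r)} :
        Ideal k[X][X]) ^ m)).comap
      (MvPolynomial.aeval ![C X, X, 1] :
        MvPolynomial (Fin 3) k →ₐ[k] k[X][X]).toLinearMap

/-- Over the field `k`, for all `(c, a)` outside a hypersurface, the space of forms has the expected
dimension in every degree. -/
def ExpectedOver (k : Type u) [Field k] (r m : ℕ) : Prop :=
  ∃ F : MvPolynomial (Fin (r + 1)) k, F ≠ 0 ∧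
    ∀ (c : k) (a : Fin r → k), MvPolynomial.eval (Fin.cons c a : Fin (r + 1) → k) F ≠ 0 →
      ∀ d : ℕ, Module.finrank k (forms m c a d) = Nat.choose (d + 2) 2 - r * Nat.choose (m + 1) 2

/-- every field of characteristic zero -/
def AllDegrees (r m : ℕ) : Prop :=
  ∀ (k : Type u) [Field k] [CharZero k], ExpectedOver k r m

/-- every field, of any characteristic -/
def AllDegreesAllFields (r m : ℕ) : Prop :=
  ∀ (k : Type u) [Field k], ExpectedOver k r m

open Classical in
/-- The bound for the probability of the bad multiplicities in characteristic zero. -/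
noncomputable def bad (r : ℕ) : ℝ :=
  if IsSquare r then 0
  else if r = 11 ∨ r = 13 then (√(r : ℝ) - 3) / 6
  else (min (√(r : ℝ) - 3) (2 / 3 + 9 / (4 * √(r : ℝ))) +
    min (√(r : ℝ) - 3) (2 / 3 + 1 / (4 * √(r : ℝ)))) / 2

/-- The bound for the probability of the bad multiplicities in all characteristics. -/
noncomputable def badAll (r : ℕ) : ℝ :=
  if r = 11 ∨ r = 13 then (√(r : ℝ) - 3) / 6 else √(r : ℝ) - 3

theorem not_square {r : ℕ} (h1 : 10 ≤ r) (h2 : r ≤ 15) : ¬ IsSquare r := by
  rintro ⟨k, hk⟩
  have : k ≤ 3 := by nlinarith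
  interval_cases k <;> omega

/-- eleven and thirteen points: a bad multiplicity gives a multiple of three in a short window -/
theorem window3 {r m : ℕ} (hr : r = 11 ∨ r = 13) (h : ¬ AllDegreesAllFields.{u} r m) :
    ∃ z : ℤ, -((√(r : ℝ) - 3) / 6) ≤ √(r : ℝ) / 3 * m + 0 - z ∧ √(r : ℝ) / 3 * m + 0 - z ≤ 0 := by
  by_contra hcon
  push Not at hcon
  apply h
  intro k _
  have key : ∃ F : MvPolynomial (Fin (r + 1)) k, F ≠ 0 ∧
      ∀ (c : k) (a : Fin r → k), MvPolynomial.eval (Fin.cons c a : Fin (r + 1) → k) F ≠ 0 →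
        ∀ d : ℕ, (¬ 3 ∣ d ∨ (d : ℝ) ≤ √(r : ℝ) * m ∨ √(r : ℝ) * (2 * m + 1) ≤ 2 * d + 3) →
          Module.finrank k (forms m c a d) = Nat.choose (d + 2) 2 - r * Nat.choose (m + 1) 2 := by
    rcases hr with rfl | rfl
    · obtain ⟨F, hF, hF'⟩ := Pool.Agent.TH518.CW.eleven_coll (m := m) k
      exact ⟨F, hF, fun c a hc d hd => hF' c a hc d hd⟩
    · obtain ⟨F, hF, hF'⟩ := Pool.Agent.TH518.CW.thirteen_coll (m := m) k
      exact ⟨F, hF, fun c a hc d hd => hF' c a hc d hd⟩
  obtain ⟨F, hF, hF'⟩ := key
  refine ⟨F, hF, fun c a hc d => hF' c a hc d ?_⟩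
  by_cases h3 : 3 ∣ d
  · obtain ⟨e, rfl⟩ := h3
    have h1 := hcon (e : ℤ)
    push_cast at h1 ⊢
    rcases le_or_gt (3 * (e : ℝ)) (√(r : ℝ) * m) with h2 | h2
    · exact Or.inr (Or.inl h2)
    · right; right
      by_contra h4
      rw [not_le] at h4
      have h5 := h1 (by linarith)
      linarith
  · exact Or.inl h3

/-- all characteristics -/
theorem window_all {r m : ℕ} (hr : 10 ≤ r) (h : ¬ AllDegreesAllFields.{u} r m) :
    ∃ z : ℤ, -(√(r : ℝ) - 3) ≤ √(r : ℝ) * m + 0 - z ∧ √(r : ℝ) * m + 0 - z ≤ 0 := by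
  by_contra hcon
  push Not at hcon
  apply h
  intro k _
  obtain ⟨F, hF, hF'⟩ := Pool.Agent.TH518.CW.coll_all (m := m) hr k
  refine ⟨F, hF, fun c a hc d => hF' c a hc d ?_⟩
  have h1 := hcon (d : ℤ)
  push_cast at h1
  rcases le_or_gt (d : ℝ) (√(r : ℝ) * m) with h2 | h2
  · exact Or.inl h2
  · right
    by_contra h4
    rw [not_le] at h4
    have h5 := h1 (by linarith)
    linarith

/-- characteristic zero -/
theorem window {r m : ℕ} (hr : 10 ≤ r) (h : ¬ AllDegrees.{u} r m) : ∃ z : ℤ,
    -(min (√(r : ℝ) - 3) (2 / 3 + 1 / (4 * √(r : ℝ))) / 2) ≤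
      √(r : ℝ) * m + (√(r : ℝ) - 3) / 2 - z ∧
    √(r : ℝ) * m + (√(r : ℝ) - 3) / 2 - z ≤
      min (√(r : ℝ) - 3) (2 / 3 + 9 / (4 * √(r : ℝ))) / 2 := by
  by_contra hcon
  push Not at hcon
  apply h
  intro k _ _
  obtain ⟨F, hF, hF'⟩ := Pool.Agent.TH183.QS.coll_every hr m k
  refine ⟨F, hF, fun c a hc d => hF' c a hc d ?_⟩
  by_contra hd
  push Not at hd
  obtain ⟨d1, d2, d3, d4⟩ := hd
  have h1 := hcon (d : ℤ)
  push_cast at h1
  have h2 : -(min (√(r : ℝ) - 3) (2 / 3 + 1 / (4 * √(r : ℝ))) / 2) ≤
      √(r : ℝ) * m + (√(r : ℝ) - 3) / 2 - d := by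
    rcases min_choice (√(r : ℝ) - 3) (2 / 3 + 1 / (4 * √(r : ℝ))) with h | h <;> rw [h] <;>
      linarith
  have h3 := h1 h2
  rcases min_choice (√(r : ℝ) - 3) (2 / 3 + 9 / (4 * √(r : ℝ))) with h | h <;> rw [h] at h3 <;>
    linarith

theorem squares {r m : ℕ} (hr : 10 ≤ r) (hsq : IsSquare r) : AllDegrees.{u} r m := by
  intro k _ _
  obtain ⟨F, hF, hF'⟩ := Pool.Agent.TH183.QS.coll_start (m := m) hr (Or.inr hsq) k
  exact ⟨F, hF, fun c a hc d => hF' c a hc d⟩

theorem of_all {r m : ℕ} (h : AllDegreesAllFields.{u} r m) : AllDegrees.{u} r m :=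
  fun k _ _ => h k

theorem bad_lt {r : ℕ} (hr : 10 ≤ r) : bad r < 1 := by
  have hs3 := three_lt hr
  unfold bad
  split_ifs with h1 h2
  · norm_num
  · have : √(r : ℝ) < 4 := by
      rw [Real.sqrt_lt' (by norm_num)]
      rcases h2 with rfl | rfl <;> norm_num
    linarith
  · have h3 := lo_le hs3.le
    have h4 := up_le hs3.le
    linarith

theorem badAll_lt {r : ℕ} (hr' : r ≤ 15) : badAll r < 1 := by
  have : √(r : ℝ) < 4 := by
    rw [Real.sqrt_lt' (by norm_num)]
    have : (r : ℝ) ≤ 15 := by exact_mod_cast hr'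
    linarith
  unfold badAll
  split_ifs <;> linarith

/-- **General collisions with random multiplicities.** -/
theorem result :
    -- characteristic zero, every number of points
    (∀ r : ℕ, 10 ≤ r → ∀ δ : ℝ, 0 < δ → Always fun μ => meas μ (fun m => ¬ AllDegrees.{u} r m) ≤ bad r + δ) ∧
    -- all fields, ten to fifteen points
    (∀ r : ℕ, 10 ≤ r → r ≤ 15 → ∀ δ : ℝ, 0 < δ →
      Always fun μ => meas μ (fun m => ¬ AllDegreesAllFields.{u} r m) ≤ badAll r + δ) ∧
    (∀ r : ℕ, 10 ≤ r → bad r < 1) ∧ (∀ r : ℕ, r ≤ 15 → badAll r < 1) ∧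
    Covers := by
  classical
  have hall : ∀ r : ℕ, 10 ≤ r → r ≤ 15 → ∀ δ : ℝ, 0 < δ →
      Always fun μ => meas μ (fun m => ¬ AllDegreesAllFields.{u} r m) ≤ badAll r + δ := by
    intro r hr hr' δ hδ
    have hs3 := three_lt hr
    have hirr : Irrational √(r : ℝ) := irrational_sqrt_natCast_iff.2 (not_square hr hr')
    by_cases h11 : r = 11 ∨ r = 13
    · have e : badAll r = 0 - (-((√(r : ℝ) - 3) / 6)) := by
        unfold badAll
        rw [if_pos h11]
        ring
      rw [e]
      have hirr3 : Irrational (√(r : ℝ) / 3) := by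
        have := hirr.div_natCast (m := 3) (by norm_num)
        simpa using this
      exact always_arc hirr3 0 (by linarith) hδ 1 _ fun m _ hbad => window3 h11 hbad
    · have e : badAll r = 0 - (-(√(r : ℝ) - 3)) := by
        unfold badAll
        rw [if_neg h11]
        ring
      rw [e]
      exact always_arc hirr 0 (by linarith) hδ 1 _ fun m _ hbad => window_all hr hbad
  refine ⟨fun r hr δ hδ => ?_, hall, fun r hr => bad_lt hr, fun r hr' => badAll_lt hr', covers⟩
  by_cases hsq : IsSquare r
  · have e : bad r = 0 := by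
      unfold bad
      rw [if_pos hsq]
    rw [e, zero_add]
    exact always_none hδ 1 _ fun m _ hbad => hbad (squares hr hsq)
  · by_cases h11 : r = 11 ∨ r = 13
    · have e : bad r = badAll r := by
        unfold bad badAll
        rw [if_neg hsq, if_pos h11, if_pos h11]
      rw [e]
      exact (hall r hr (by omega) δ hδ).mono fun μ hμ h => (meas_mono hμ fun m hm h1 => hm (of_all h1)).trans h
    · obtain ⟨g1, g2⟩ := win_nonneg hr
      have e : bad r = min (√(r : ℝ) - 3) (2 / 3 + 9 / (4 * √(r : ℝ))) / 2 -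
          (-(min (√(r : ℝ) - 3) (2 / 3 + 1 / (4 * √(r : ℝ))) / 2)) := by
        unfold bad
        rw [if_neg hsq, if_neg h11]
        ring
      rw [e]
      have hirr : Irrational √(r : ℝ) := irrational_sqrt_natCast_iff.2 hsq
      exact always_arc hirr ((√(r : ℝ) - 3) / 2) (by linarith) hδ 1 _ fun m _ hbad => window hr hbad

end Pool.Agent.Results.MP_e6aa12_ag.RandomMultiplicities
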