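import Pool.Agent.TH183.QS.Fin
import Pool.Agent.TH518.CW.TwoC
import Pool.Agent.N141.SG.One

set_option autoImplicit false

/-!
# General collisions of `r ≥ 10` fat points: all degrees, along thin sequences of multiplicities

The multiplicities are `m = ⌊P(t)⌋`, where `P` is a generalised polynomial with a non-integral leading
exponent and `t` runs through the integers, and also through the primes, of `(N, 2N]`.

(1) For every `r ≥ 10` and for all `t` outside of a proportion of at most `bad r < 1` the space of the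
forms of degree `d` on the scheme with ideal
`(y - (a₀ + a₁ x + ... + a_(r-1) x ^ (r-1)), (x - c) ^ r) ^ m` has the expected dimension in EVERY
degree `d`, over every field of characteristic zero and for all `(c, a)` outside a hypersurface;
`bad r = 0` if `r` is a square.

(2) For `r = 10, …, 15` the same holds over EVERY field, of any characteristic, outside of a proportion
of at most `badAll r < 1` of the `t`.
-/

namespace Pool.Agent.Results.MP_e6aa12_ag.ThinSequencesOfMultiplicities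

open Polynomial Filter
open Pool.Agent.N141.SG (three_lt count_of count_none lo_le up_le win_nonneg)

universe u

/-- The forms of degree `d` in three variables whose dehomogenisation lies in the ideal
`(y - ∑ a_j x ^ j, (x - c) ^ r) ^ m` of `k[x][y]`. -/
noncomputable def forms {k : Type u} [Field k] {r : ℕ} (m : ℕ) (c : k) (a : Fin r → k) (d : ℕ) :
    Submodule k (MvPolynomial (Fin 3) k) :=
  MvPolynomial.homogeneousSubmodule (Fin 3) k d ⊓
    (Submodule.restrictScalars k
      ((Ideal.span {X - C (∑ j : Fin r, C (a j) * X ^ (j : ℕ)), C ((X - C c) ^ r)} :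
        Ideal k[X][X]) ^ m)).comap
      (MvPolynomial.aeval ![C X, X, 1] :
        MvPolynomial (Fin 3) k →ₐ[k] k[X][X]).toLinearMap

/-- Over the field `k`, for all `(c, a)` outside a hypersurface, the space of forms has the expected
dimension in every degree. -/
def ExpectedOver (k : Type u) [Field k] (r m : ℕ) : Prop :=
  ∃ F : MvPolynomial (Fin (r + 1)) k, F ≠ 0 ∧
    ∀ (c : k) (a : Fin r → k), MvPolynomial.eval (Fin.cons c a : Fin (r + 1) → k) F ≠ 0 →
      ∀ d : ℕ, Module.finrank k (forms m c a d) = Nat.choose (d + 2) 2 - r * Nat.choose (m + 1) 2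

/-- every field of characteristic zero -/
def AllDegrees (r m : ℕ) : Prop :=
  ∀ (k : Type u) [Field k] [CharZero k], ExpectedOver k r m

/-- every field, of any characteristic -/
def AllDegreesAllFields (r m : ℕ) : Prop :=
  ∀ (k : Type u) [Field k], ExpectedOver k r m

/-- The coefficients `a` and the exponents `F` of a generalised polynomial `∑ x ∈ F, a x * t ^ x` with
leading exponent `c > 0`, not an integer, and positive leading coefficient. -/
def Adm (F : Finset ℝ) (a : ℝ → ℝ) (c : ℝ) : Prop :=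
  c ∈ F ∧ (∀ x ∈ F, x ≤ c) ∧ 0 < c ∧ (∀ k : ℕ, c ≠ k) ∧ 0 < a c

/-- The members `⌊∑ x ∈ F, a x * t ^ x⌋` of the thin sequence. -/
noncomputable def mult (F : Finset ℝ) (a : ℝ → ℝ) (t : ℕ) : ℕ := ⌊∑ x ∈ F, a x * (t : ℝ) ^ x⌋₊

open Classical in
/-- The bound for the proportion of the bad multiplicities in characteristic zero. -/
noncomputable def bad (r : ℕ) : ℝ :=
  if IsSquare r then 0
  else if r = 11 ∨ r = 13 then (√(r : ℝ) - 3) / 6
  else (min (√(r : ℝ) - 3) (2 / 3 + 9 / (4 * √(r : ℝ))) +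
    min (√(r : ℝ) - 3) (2 / 3 + 1 / (4 * √(r : ℝ)))) / 2

/-- The bound for the proportion of the bad multiplicities in all characteristics. -/
noncomputable def badAll (r : ℕ) : ℝ :=
  if r = 11 ∨ r = 13 then (√(r : ℝ) - 3) / 6 else √(r : ℝ) - 3

theorem not_square {r : ℕ} (h1 : 10 ≤ r) (h2 : r ≤ 15) : ¬ IsSquare r := by
  rintro ⟨k, hk⟩
  have : k ≤ 3 := by nlinarith
  interval_cases k <;> omega

/-- eleven and thirteen points: a bad multiplicity gives a multiple of three in a short window -/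
theorem window3 {r m : ℕ} (hr : r = 11 ∨ r = 13) (h : ¬ AllDegreesAllFields.{u} r m) :
    ∃ z : ℤ, -((√(r : ℝ) - 3) / 6) ≤ √(r : ℝ) / 3 * m + 0 - z ∧ √(r : ℝ) / 3 * m + 0 - z ≤ 0 := by
  by_contra hcon
  push Not at hcon
  apply h
  intro k _
  have key : ∃ F : MvPolynomial (Fin (r + 1)) k, F ≠ 0 ∧
      ∀ (c : k) (a : Fin r → k), MvPolynomial.eval (Fin.cons c a : Fin (r + 1) → k) F ≠ 0 →
        ∀ d : ℕ, (¬ 3 ∣ d ∨ (d : ℝ) ≤ √(r : ℝ) * m ∨ √(r : ℝ) * (2 * m + 1) ≤ 2 * d + 3) →
          Module.finrank k (forms m c a d) = Nat.choose (d + 2) 2 - r * Nat.choose (m + 1) 2 := by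
    rcases hr with rfl | rfl
    · obtain ⟨F, hF, hF'⟩ := Pool.Agent.TH518.CW.eleven_coll (m := m) k
      exact ⟨F, hF, fun c a hc d hd => hF' c a hc d hd⟩
    · obtain ⟨F, hF, hF'⟩ := Pool.Agent.TH518.CW.thirteen_coll (m := m) k
      exact ⟨F, hF, fun c a hc d hd => hF' c a hc d hd⟩
  obtain ⟨F, hF, hF'⟩ := key
  refine ⟨F, hF, fun c a hc d => hF' c a hc d ?_⟩
  by_cases h3 : 3 ∣ d
  · obtain ⟨e, rfl⟩ := h3
    have h1 := hcon (e : ℤ)
    push_cast at h1 ⊢
    rcases le_or_gt (3 * (e : ℝ)) (√(r : ℝ) * m) with h2 | h2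
    · exact Or.inr (Or.inl h2)
    · right; right
      by_contra h4
      rw [not_le] at h4
      have h5 := h1 (by linarith)
      linarith
  · exact Or.inl h3

/-- all characteristics -/
theorem window_all {r m : ℕ} (hr : 10 ≤ r) (h : ¬ AllDegreesAllFields.{u} r m) :
    ∃ z : ℤ, -(√(r : ℝ) - 3) ≤ √(r : ℝ) * m + 0 - z ∧ √(r : ℝ) * m + 0 - z ≤ 0 := by
  by_contra hcon
  push Not at hcon
  apply h
  intro k _
  obtain ⟨F, hF, hF'⟩ := Pool.Agent.TH518.CW.coll_all (m := m) hr k
  refine ⟨F, hF, fun c a hc d => hF' c a hc d ?_⟩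
  have h1 := hcon (d : ℤ)
  push_cast at h1
  rcases le_or_gt (d : ℝ) (√(r : ℝ) * m) with h2 | h2
  · exact Or.inl h2
  · right
    by_contra h4
    rw [not_le] at h4
    have h5 := h1 (by linarith)
    linarith

/-- characteristic zero -/
theorem window {r m : ℕ} (hr : 10 ≤ r) (h : ¬ AllDegrees.{u} r m) : ∃ z : ℤ,
    -(min (√(r : ℝ) - 3) (2 / 3 + 1 / (4 * √(r : ℝ))) / 2) ≤
      √(r : ℝ) * m + (√(r : ℝ) - 3) / 2 - z ∧
    √(r : ℝ) * m + (√(r : ℝ) - 3) / 2 - z ≤
      min (√(r : ℝ) - 3) (2 / 3 + 9 / (4 * √(r : ℝ))) / 2 := by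
  by_contra hcon
  push Not at hcon
  apply h
  intro k _ _
  obtain ⟨F, hF, hF'⟩ := Pool.Agent.TH183.QS.coll_every hr m k
  refine ⟨F, hF, fun c a hc d => hF' c a hc d ?_⟩
  by_contra hd
  push Not at hd
  obtain ⟨d1, d2, d3, d4⟩ := hd
  have h1 := hcon (d : ℤ)
  push_cast at h1
  have h2 : -(min (√(r : ℝ) - 3) (2 / 3 + 1 / (4 * √(r : ℝ))) / 2) ≤
      √(r : ℝ) * m + (√(r : ℝ) - 3) / 2 - d := by
    rcases min_choice (√(r : ℝ) - 3) (2 / 3 + 1 / (4 * √(r : ℝ))) with h | h <;> rw [h] <;>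
      linarith
  have h3 := h1 h2
  rcases min_choice (√(r : ℝ) - 3) (2 / 3 + 9 / (4 * √(r : ℝ))) with h | h <;> rw [h] at h3 <;>
    linarith

theorem squares {r m : ℕ} (hr : 10 ≤ r) (hsq : IsSquare r) : AllDegrees.{u} r m := by
  intro k _ _
  obtain ⟨F, hF, hF'⟩ := Pool.Agent.TH183.QS.coll_start (m := m) hr (Or.inr hsq) k
  exact ⟨F, hF, fun c a hc d => hF' c a hc d⟩

theorem of_all {r m : ℕ} (h : AllDegreesAllFields.{u} r m) : AllDegrees.{u} r m :=
  fun k _ _ => h k

theorem bad_lt {r : ℕ} (hr : 10 ≤ r) : bad r < 1 := by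
  have hs3 := three_lt hr
  unfold bad
  split_ifs with h1 h2
  · norm_num
  · have : √(r : ℝ) < 4 := by
      rw [Real.sqrt_lt' (by norm_num)]
      rcases h2 with rfl | rfl <;> norm_num
    linarith
  · have h3 := lo_le hs3.le
    have h4 := up_le hs3.le
    linarith

theorem badAll_lt {r : ℕ} (hr' : r ≤ 15) : badAll r < 1 := by
  have : √(r : ℝ) < 4 := by
    rw [Real.sqrt_lt' (by norm_num)]
    have : (r : ℝ) ≤ 15 := by exact_mod_cast hr'
    linarith
  unfold badAll
  split_ifs <;> linarith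

/-- **Main result.** -/
theorem result :
    -- characteristic zero, every number of points
    (∀ r : ℕ, 10 ≤ r → ∀ (F : Finset ℝ) (a : ℝ → ℝ) (c : ℝ), Adm F a c → ∀ δ : ℝ, 0 < δ →
      ∀ᶠ N : ℕ in atTop,
      ({t : ℕ | t ∈ Finset.Ioc N (2 * N) ∧ ¬ AllDegrees.{u} r (mult F a t)}.ncard : ℝ) ≤
        (bad r + δ) * ((Finset.Ioc N (2 * N)).card : ℝ) ∧
      ({t : ℕ | t ∈ (Finset.Ioc N (2 * N)).filter Nat.Prime ∧
          ¬ AllDegrees.{u} r (mult F a t)}.ncard : ℝ) ≤
        (bad r + δ) * (((Finset.Ioc N (2 * N)).filter Nat.Prime).card : ℝ)) ∧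
    -- all fields, ten to fifteen points
    (∀ r : ℕ, 10 ≤ r → r ≤ 15 → ∀ (F : Finset ℝ) (a : ℝ → ℝ) (c : ℝ), Adm F a c →
      ∀ δ : ℝ, 0 < δ → ∀ᶠ N : ℕ in atTop,
      ({t : ℕ | t ∈ Finset.Ioc N (2 * N) ∧ ¬ AllDegreesAllFields.{u} r (mult F a t)}.ncard : ℝ) ≤
        (badAll r + δ) * ((Finset.Ioc N (2 * N)).card : ℝ) ∧
      ({t : ℕ | t ∈ (Finset.Ioc N (2 * N)).filter Nat.Prime ∧
          ¬ AllDegreesAllFields.{u} r (mult F a t)}.ncard : ℝ) ≤
        (badAll r + δ) * (((Finset.Ioc N (2 * N)).filter Nat.Prime).card : ℝ)) ∧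
    (∀ r : ℕ, 10 ≤ r → bad r < 1) ∧ (∀ r : ℕ, r ≤ 15 → badAll r < 1) := by
  classical
  have hall : ∀ r : ℕ, 10 ≤ r → r ≤ 15 → ∀ (F : Finset ℝ) (a : ℝ → ℝ) (c : ℝ), Adm F a c →
      ∀ δ : ℝ, 0 < δ → ∀ᶠ N : ℕ in atTop,
      ({t : ℕ | t ∈ Finset.Ioc N (2 * N) ∧ ¬ AllDegreesAllFields.{u} r (mult F a t)}.ncard : ℝ) ≤
        (badAll r + δ) * ((Finset.Ioc N (2 * N)).card : ℝ) ∧
      ({t : ℕ | t ∈ (Finset.Ioc N (2 * N)).filter Nat.Prime ∧
          ¬ AllDegreesAllFields.{u} r (mult F a t)}.ncard : ℝ) ≤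
        (badAll r + δ) * (((Finset.Ioc N (2 * N)).filter Nat.Prime).card : ℝ) := by
    intro r hr hr' F a c h δ hδ
    have hs3 := three_lt hr
    have hirr : Irrational √(r : ℝ) := irrational_sqrt_natCast_iff.2 (not_square hr hr')
    by_cases h11 : r = 11 ∨ r = 13
    · have e : badAll r = 0 - (-((√(r : ℝ) - 3) / 6)) := by
        unfold badAll
        rw [if_pos h11]
        ring
      rw [e]
      have hirr3 : Irrational (√(r : ℝ) / 3) := by
        have := hirr.div_natCast (m := 3) (by norm_num)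
        simpa using this
      exact count_of (F := F) (a := a) (c := c) h (by linarith) hirr3 0 (by linarith)
        (bad := fun m => ¬ AllDegreesAllFields.{u} r m) (fun m _ hbad => window3 h11 hbad) hδ
    · have e : badAll r = 0 - (-(√(r : ℝ) - 3)) := by
        unfold badAll
        rw [if_neg h11]
        ring
      rw [e]
      exact count_of (F := F) (a := a) (c := c) h (by linarith) hirr 0 (by linarith)
        (bad := fun m => ¬ AllDegreesAllFields.{u} r m) (fun m _ hbad => window_all hr hbad) hδ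
  refine ⟨fun r hr F a c h δ hδ => ?_, hall, fun r hr => bad_lt hr, fun r hr' => badAll_lt hr'⟩
  by_cases hsq : IsSquare r
  · have e : bad r = 0 := by
      unfold bad
      rw [if_pos hsq]
    rw [e, zero_add]
    exact count_none (F := F) (a := a) (c := c) h (bad := fun m => ¬ AllDegrees.{u} r m)
      (fun m _ hbad => hbad (squares hr hsq)) hδ.le
  · by_cases h11 : r = 11 ∨ r = 13
    · have e : bad r = badAll r := by
        unfold bad badAll
        rw [if_neg hsq, if_pos h11, if_pos h11]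
      rw [e]
      filter_upwards [hall r hr (by omega) F a c h δ hδ] with N hN
      have key : ∀ s : Finset ℕ, ({t : ℕ | t ∈ s ∧ ¬ AllDegrees.{u} r (mult F a t)}.ncard : ℝ) ≤
          ({t : ℕ | t ∈ s ∧ ¬ AllDegreesAllFields.{u} r (mult F a t)}.ncard : ℝ) := by
        intro s
        have h1 : {t : ℕ | t ∈ s ∧ ¬ AllDegrees.{u} r (mult F a t)} ⊆
            {t : ℕ | t ∈ s ∧ ¬ AllDegreesAllFields.{u} r (mult F a t)} :=
          fun t ht => ⟨ht.1, fun h2 => ht.2 (of_all h2)⟩
        exact_mod_cast Set.ncard_le_ncard h1 ((Finset.finite_toSet s).subset fun t ht => ht.1)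
      exact ⟨(key _).trans hN.1, (key _).trans hN.2⟩
    · obtain ⟨g1, g2⟩ := win_nonneg hr
      have e : bad r = min (√(r : ℝ) - 3) (2 / 3 + 9 / (4 * √(r : ℝ))) / 2 -
          (-(min (√(r : ℝ) - 3) (2 / 3 + 1 / (4 * √(r : ℝ))) / 2)) := by
        unfold bad
        rw [if_neg hsq, if_neg h11]
        ring
      rw [e]
      have hs3 := three_lt hr
      have hirr : Irrational √(r : ℝ) := irrational_sqrt_natCast_iff.2 hsq
      exact count_of (F := F) (a := a) (c := c) h (by linarith) hirr ((√(r : ℝ) - 3) / 2)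
        (by linarith) (bad := fun m => ¬ AllDegrees.{u} r m) (fun m _ hbad => window hr hbad) hδ

end Pool.Agent.Results.MP_e6aa12_ag.ThinSequencesOfMultiplicities
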